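import Pool.Agent.P8H24.PC.Pf

set_option autoImplicit false

/-!
# Bounds in the right half plane
-/

namespace Pool.Agent.P8H24.PC

open Complex Filter Topology MeasureTheory Set Metric
open Pool.Agent.H986R2.DBN (XT ker FT b1A)
open Pool.Agent.P8H8.HF
open Pool.Agent.P8H8.PC

lemma inv_re_eq {z : ℂ} (y : ℝ) :
    ((z - I * (y : ℂ))⁻¹).re = z.re / ‖z - I * (y : ℂ)‖ ^ 2 := by
  rw [Complex.inv_re, Complex.normSq_eq_norm_sq]
  congr 1
  simp

lemma re_le_sub {z : ℂ} (y : ℝ) : z.re ≤ ‖z - I * (y : ℂ)‖ := by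
  have h := Complex.re_le_norm (z - I * (y : ℂ))
  have e : (z - I * (y : ℂ)).re = z.re := by simp
  rwa [e] at h

lemma inv_sub_le {z w : ℂ} (hz : 0 < z.re) (hwz : ‖w - z‖ ≤ z.re / 2) (y : ℝ) :
    ‖(w - I * (y : ℂ))⁻¹ - (z - I * (y : ℂ))⁻¹‖ ≤
      2 * (‖w - z‖ / z.re) * ((z - I * (y : ℂ))⁻¹).re := by
  rw [inv_re_eq]
  obtain ⟨A, hA⟩ : ∃ A, A = z - I * (y : ℂ) := ⟨_, rfl⟩
  obtain ⟨B, hB⟩ : ∃ B, B = w - I * (y : ℂ) := ⟨_, rfl⟩
  rw [← hA, ← hB]
  have h1 : z.re ≤ ‖A‖ := by rw [hA]; exact re_le_sub y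
  have h2 : ‖A‖ ≤ ‖B‖ + ‖w - z‖ := by
    have h3 := norm_sub_le B (w - z)
    have e : B - (w - z) = A := by rw [hA, hB]; ring
    rwa [e] at h3
  have hA0 : 0 < ‖A‖ := by linarith
  have h3 : ‖A‖ / 2 ≤ ‖B‖ := by linarith
  have hB0 : 0 < ‖B‖ := by linarith
  have hAne : A ≠ 0 := norm_pos_iff.1 hA0
  have hBne : B ≠ 0 := norm_pos_iff.1 hB0
  have e1 : B⁻¹ - A⁻¹ = -(w - z) / (B * A) := by
    have e : w - z = B - A := by rw [hA, hB]; ring
    rw [e]
    field_simp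
    ring
  rw [e1, norm_div, norm_neg, norm_mul]
  have e2 : 2 * (‖w - z‖ / z.re) * (z.re / ‖A‖ ^ 2) = ‖w - z‖ / (‖A‖ / 2 * ‖A‖) := by
    field_simp
  rw [e2]
  gcongr

lemma re_pos_of {z w : ℂ} (hz : 0 < z.re) (hwz : ‖w - z‖ ≤ z.re / 2) : 0 < w.re := by
  have h := Complex.abs_re_le_norm (w - z)
  rw [Complex.sub_re] at h
  have h2 := (abs_le.1 (h.trans hwz)).1
  linarith

theorem pos_case (RH : RiemannHypothesis) {τ : ℝ} (h0 : 0 < τ) (h1 : τ ≤ 1 / 8) {z : ℂ} (hz : 0 < z.re) :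
    0 ≤ (LL τ z).re ∧
    ∀ w : ℂ, ‖w - z‖ ≤ z.re / 2 → ‖LL τ w - LL τ z‖ ≤ 2 * (‖w - z‖ / z.re) * (LL τ z).re := by
  have hp := pf RH τ h0 h1 z hz
  have hre := (Complex.continuous_re.tendsto _).comp hp
  refine ⟨?_, ?_⟩
  · refine ge_of_tendsto' hre (fun M => ?_)
    simp only [Function.comp_def]
    rw [Complex.re_sum]
    apply Finset.sum_nonneg
    intro i _
    rw [inv_re_eq]
    positivity
  · intro w hw
    have hpw := pf RH τ h0 h1 w (re_pos_of hz hw)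
    refine le_of_tendsto_of_tendsto' (hpw.sub hp).norm (hre.const_mul (2 * (‖w - z‖ / z.re))) (fun M => ?_)
    simp only [Function.comp_def]
    rw [← Finset.sum_sub_distrib, Complex.re_sum, Finset.mul_sum]
    refine (norm_sum_le _ _).trans (Finset.sum_le_sum fun i _ => ?_)
    exact inv_sub_le hz hw _

lemma DD_ne (RH : RiemannHypothesis) {τ : ℝ} (h0 : 0 ≤ τ) {z : ℂ} (hz : 0 < z.re) : DD 0 τ z ≠ 0 := by
  intro h
  have := DD_re RH 0 h0 h
  linarith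

lemma LL_tend (RH : RiemannHypothesis) {z : ℂ} (hz : 0 < z.re) :
    Tendsto (fun s : ℝ => LL s z) (𝓝[>] (0 : ℝ)) (𝓝 (LL 0 z)) := by
  have hc : ∀ n : ℕ, ContinuousAt (fun s : ℝ => DD n s z) 0 := by
    intro n
    have h1 : ContinuousAt (fun s : ℝ => ((s, z) : ℝ × ℂ)) 0 := by fun_prop
    exact ContinuousAt.comp (f := fun s : ℝ => ((s, z) : ℝ × ℂ))
      (g := fun p : ℝ × ℂ => DD n p.1 p.2) (DD_cont n (by norm_num) z) h1
  have h2 : ContinuousAt (fun s : ℝ => LL s z) 0 := by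
    unfold LL
    exact (hc 1).div (hc 0) (DD_ne RH le_rfl hz)
  exact h2.tendsto.mono_left nhdsWithin_le_nhds

theorem all_case (RH : RiemannHypothesis) {τ : ℝ} (h0 : 0 ≤ τ) (h1 : τ ≤ 1 / 8) {z : ℂ} (hz : 0 < z.re) :
    0 ≤ (LL τ z).re ∧
    ∀ w : ℂ, ‖w - z‖ ≤ z.re / 2 → ‖LL τ w - LL τ z‖ ≤ 2 * (‖w - z‖ / z.re) * (LL τ z).re := by
  rcases h0.eq_or_lt with h | h
  · subst h
    have hev : ∀ᶠ s : ℝ in 𝓝[>] (0 : ℝ), 0 < s ∧ s ≤ 1 / 8 := by
      have := Ioc_mem_nhdsGT (show (0 : ℝ) < 1 / 8 by norm_num)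
      filter_upwards [this] with s hs
      exact ⟨hs.1, hs.2⟩
    have hre := (Complex.continuous_re.tendsto _).comp (LL_tend RH hz)
    refine ⟨?_, ?_⟩
    · refine ge_of_tendsto hre ?_
      filter_upwards [hev] with s hs
      exact (pos_case RH hs.1 hs.2 hz).1
    · intro w hw
      refine le_of_tendsto_of_tendsto ((LL_tend RH (re_pos_of hz hw)).sub (LL_tend RH hz)).norm
        (hre.const_mul (2 * (‖w - z‖ / z.re))) ?_
      filter_upwards [hev] with s hs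
      exact (pos_case RH hs.1 hs.2 hz).2 w hw
  · exact pos_case RH h h1 hz

lemma LL_der (RH : RiemannHypothesis) {τ : ℝ} (h0 : 0 ≤ τ) {z : ℂ} (hz : 0 < z.re) :
    HasDerivAt (LL τ) (DD 2 τ z / DD 0 τ z - LL τ z ^ 2) z := by
  have hne := DD_ne RH h0 hz
  have h := (DD_var 1 h0 z).div (DD_var 0 h0 z) hne
  have e : LL τ = (DD 1 τ / DD 0 τ) := rfl
  rw [e]
  refine h.congr_deriv ?_
  simp only [Pi.div_apply]
  field_simp

lemma LL_der2 (RH : RiemannHypothesis) {τ : ℝ} (h0 : 0 ≤ τ) {z : ℂ} (hz : 0 < z.re) :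
    HasDerivAt (fun z => DD 2 τ z / DD 0 τ z - LL τ z ^ 2) (L2 τ z) z := by
  have hne := DD_ne RH h0 hz
  have h := ((DD_var 2 h0 z).div (DD_var 0 h0 z) hne).sub ((LL_der RH h0 hz).pow 2)
  refine (h.congr_deriv ?_)
  unfold L2 LL
  push_cast
  field_simp
  ring

theorem herg : S_HERG := by
  intro RH τ h0 h1 z hz
  obtain ⟨g1, g2⟩ := all_case RH h0 h1 hz
  refine ⟨g1, ?_, g2⟩
  have hr : 0 < z.re / 2 := by linarith
  have hopen : IsOpen {w : ℂ | 0 < w.re} := isOpen_lt continuous_const Complex.continuous_re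
  have hdiff : DiffContOnCl ℂ (fun w => LL τ w - LL τ z) (ball z (z.re / 2)) := by
    apply DifferentiableOn.diffContOnCl
    intro w hw
    have hw2 : w ∈ closedBall z (z.re / 2) := closure_ball_subset_closedBall hw
    rw [mem_closedBall, dist_eq_norm] at hw2
    exact ((LL_der RH h0 (re_pos_of hz hw2)).differentiableAt.sub_const _).differentiableWithinAt
  have hbd : ∀ w ∈ sphere z (z.re / 2), ‖LL τ w - LL τ z‖ ≤ (LL τ z).re := by
    intro w hw
    rw [mem_sphere, dist_eq_norm] at hw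
    have h2 := g2 w hw.le
    rw [hw] at h2
    have e : 2 * (z.re / 2 / z.re) * (LL τ z).re = (LL τ z).re := by
      field_simp
    rwa [e] at h2
  have h3 := Complex.norm_iteratedDeriv_le_of_forall_mem_sphere_norm_le 2 hr hdiff hbd
  have e1 : iteratedDeriv 2 (fun w => LL τ w - LL τ z) z = L2 τ z := by
    rw [iteratedDeriv_succ, iteratedDeriv_one]
    have e2 : deriv (fun w => LL τ w - LL τ z) =ᶠ[𝓝 z] fun w => DD 2 τ w / DD 0 τ w - LL τ w ^ 2 := by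
      filter_upwards [hopen.mem_nhds hz] with w hw
      exact ((LL_der RH h0 hw).sub_const _).deriv
    rw [e2.deriv_eq]
    exact (LL_der2 RH h0 hz).deriv
  rw [e1] at h3
  refine h3.trans ?_
  have e3 : ((Nat.factorial 2 : ℕ) : ℝ) * (LL τ z).re / (z.re / 2) ^ 2 = 8 * (LL τ z).re / z.re ^ 2 := by
    have : ((Nat.factorial 2 : ℕ) : ℝ) = 2 := by norm_num [Nat.factorial]
    rw [this]
    field_simp
    ring
  rw [e3]
  have hz2 : 0 < z.re ^ 2 := by positivity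
  apply div_le_div_of_nonneg_right _ hz2.le
  linarith

end Pool.Agent.P8H24.PC
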