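import Pool.Agent.P8H8.PC.Stm

set_option autoImplicit false

/-!
# Partial fractions for the logarithmic derivative of the heat flow
-/

namespace Pool.Agent.P8H24.PC

open Complex Filter Topology MeasureTheory Set Metric
open Pool.Agent.H986R2.DBN (XT ker FT b1A)
open Pool.Agent.P8H8.HF
open Pool.Agent.P8H8.PC

lemma sub_ne {z : ℂ} (hz : 0 < z.re) (y : ℝ) : z - I * (y : ℂ) ≠ 0 := by
  intro h
  have h2 := congrArg Complex.re h
  simp at h2
  linarith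

lemma add_ne {z : ℂ} (hz : 0 < z.re) (y : ℝ) : z + I * (y : ℂ) ≠ 0 := by
  intro h
  have h2 := congrArg Complex.re h
  simp at h2
  linarith

lemma sq_add (z : ℂ) (y : ℝ) : z ^ 2 + ((y ^ 2 : ℝ) : ℂ) = (z - I * (y : ℂ)) * (z + I * (y : ℂ)) := by
  have h : I ^ 2 = -1 := I_sq
  push_cast
  linear_combination (y : ℂ) ^ 2 * h

lemma sq_ne {z : ℂ} (hz : 0 < z.re) (y : ℝ) : z ^ 2 + ((y ^ 2 : ℝ) : ℂ) ≠ 0 := by
  rw [sq_add]
  exact mul_ne_zero (sub_ne hz y) (add_ne hz y)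

/-- the symmetric sum -/
lemma sum_sym {y : ℤ → ℝ} (hr : ∀ k, y (-k - 1) = -y k) {z : ℂ} (hz : 0 < z.re) (M : ℕ) :
    ∑ i ∈ Finset.Ico (-(M : ℤ)) M, (z - I * (y i : ℂ))⁻¹ =
      ∑ j ∈ Finset.range M, 2 * z * (z ^ 2 + ((y j ^ 2 : ℝ) : ℂ))⁻¹ := by
  induction M with
  | zero => simp
  | succ M ih =>
    rw [Finset.sum_range_succ, ← ih]
    have e1 : Finset.Ico (-((M + 1 : ℕ) : ℤ)) ((M + 1 : ℕ) : ℤ) =
        insert (-(M : ℤ) - 1) (insert (M : ℤ) (Finset.Ico (-(M : ℤ)) M)) := by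
      ext i
      simp only [Finset.mem_Ico, Finset.mem_insert]
      push_cast
      omega
    rw [e1, Finset.sum_insert (by simp only [Finset.mem_insert, Finset.mem_Ico]; omega),
      Finset.sum_insert (by simp), hr]
    have h1 := sub_ne hz (y M)
    have h2 := add_ne hz (y M)
    have e2 : z - I * ((-y M : ℝ) : ℂ) = z + I * (y M : ℂ) := by
      push_cast
      ring
    rw [e2, sq_add]
    field_simp
    ring

lemma FT_ne (RH : RiemannHypothesis) {τ : ℝ} (h0 : 0 ≤ τ) {z : ℂ} (hz : 0 < z.re) : FT τ (z ^ 2) ≠ 0 := by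
  have h1 := (b1A τ h0).2.1 z
  intro h
  have h2 : DD 0 τ z = 0 := by
    rw [DD_zero, ← h1, h]
  have h3 := DD_re RH 0 h0 h2
  linarith

lemma LL_eq {τ : ℝ} (h0 : 0 ≤ τ) (z : ℂ) : LL τ z = 2 * z * logDeriv (FT τ) (z ^ 2) := by
  unfold LL
  have h1 := (b1A τ h0).2.1 z
  rw [DD_zero, ← h1, FT_der1 h0, logDeriv_apply, mul_div_assoc]

/-- the limit along a subsequence -/
theorem key_lim (RH : RiemannHypothesis) {τ : ℝ} (h0 : 0 < τ) (h1 : τ ≤ 1 / 8) {z : ℂ} (hz : 0 < z.re) :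
    Tendsto (fun N : ℕ => ∑ j ∈ Finset.range (cn (ZZ τ) (Real.sqrt ((N : ℝ) + 1))),
      2 * z * (z ^ 2 + ((en (ZZ τ) j ^ 2 : ℝ) : ℂ))⁻¹) atTop (𝓝 (LL τ z)) := by
  have hLF := ZZ_LF RH h0.le h1
  obtain ⟨G, hG, hF, hlim⟩ := fac_lim RH h0 h1
  have hF0 := FT_zero_ne h0.le
  have hFz := FT_ne RH h0.le hz
  obtain ⟨w, hw⟩ : ∃ w, w = z ^ 2 := ⟨_, rfl⟩
  rw [LL_eq h0.le, ← hw]
  rw [← hw] at hFz
  -- the identity
  have hid : ∀ N : ℕ, logDeriv (FT τ) w = (∑ j ∈ Finset.range (cn (ZZ τ) (Real.sqrt ((N : ℝ) + 1))),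
      (w + ((en (ZZ τ) j ^ 2 : ℝ) : ℂ))⁻¹) + deriv (G N) w / G N w := by
    intro N
    obtain ⟨J, hJ⟩ : ∃ J, J = Finset.range (cn (ZZ τ) (Real.sqrt ((N : ℝ) + 1))) := ⟨_, rfl⟩
    have hFN := hF N
    rw [← hJ] at hFN ⊢
    obtain ⟨Q, hQ⟩ : ∃ Q : ℂ → ℂ, Q = fun w => ∏ j ∈ J, (1 + w / ((en (ZZ τ) j ^ 2 : ℝ) : ℂ)) := ⟨_, rfl⟩
    have hQd : Differentiable ℂ Q := by rw [hQ]; fun_prop
    have hfac : FT τ = fun w => Q w * G N w := by
      funext u
      rw [hFN u, hQ]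
    have hHne : Q w * G N w ≠ 0 := by
      have h2 : FT τ w = Q w * G N w := congrFun hfac w
      rw [← h2]
      exact hFz
    have hQne : Q w ≠ 0 := left_ne_zero_of_mul hHne
    have hGne : G N w ≠ 0 := right_ne_zero_of_mul hHne
    rw [hfac, logDeriv_mul _ hQne hGne hQd.differentiableAt (hG N).differentiableAt, ← logDeriv_apply]
    congr 1
    have hQne2 : ∀ j ∈ J, 1 + w / ((en (ZZ τ) j ^ 2 : ℝ) : ℂ) ≠ 0 := by
      intro j hj h
      apply hQne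
      rw [hQ]
      exact Finset.prod_eq_zero hj h
    rw [hQ, logDeriv_prod]
    · apply Finset.sum_congr rfl
      intro j hj
      have hj0 := en_pos hLF j
      have hjc : ((en (ZZ τ) j ^ 2 : ℝ) : ℂ) ≠ 0 := by exact_mod_cast (by positivity : en (ZZ τ) j ^ 2 ≠ 0)
      have hne : w + ((en (ZZ τ) j ^ 2 : ℝ) : ℂ) ≠ 0 := by
        rw [hw]
        exact sq_ne hz _
      rw [logDeriv_apply]
      have hd : HasDerivAt (fun w : ℂ => 1 + w / ((en (ZZ τ) j ^ 2 : ℝ) : ℂ)) (1 / ((en (ZZ τ) j ^ 2 : ℝ) : ℂ))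
          w := ((hasDerivAt_id _).div_const _).const_add 1
      rw [hd.deriv]
      have e2 : 1 + w / ((en (ZZ τ) j ^ 2 : ℝ) : ℂ) =
          (w + ((en (ZZ τ) j ^ 2 : ℝ) : ℂ)) / ((en (ZZ τ) j ^ 2 : ℝ) : ℂ) := by
        field_simp
        ring
      rw [e2]
      field_simp
    · exact hQne2
    · intro j hj
      fun_prop
  -- the error tends to zero
  have herr : Tendsto (fun N : ℕ => deriv (G N) w / G N w) atTop (𝓝 0) := by
    have hnum : Tendsto (fun N : ℕ => deriv (G N) w) atTop (𝓝 0) := by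
      rw [Metric.tendsto_nhds]
      intro ε hε
      filter_upwards [hlim (‖w‖ + 1) (ε / 2) (by positivity) (by positivity)] with N hN
      rw [dist_zero_right]
      have h2 : ‖deriv (fun w => G N w - FT τ 0) w‖ ≤ ε / 2 / 1 := by
        apply Complex.norm_deriv_le_of_forall_mem_sphere_norm_le one_pos
        · exact ((hG N).sub_const _).diffContOnCl
        · intro u hu
          apply hN
          rw [mem_sphere, dist_eq_norm] at hu
          have h3 : ‖u‖ ≤ ‖u - w‖ + ‖w‖ := by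
            have := norm_add_le (u - w) w
            simpa using this
          rw [hu] at h3
          linarith
      rw [deriv_sub_const] at h2
      linarith
    have hden : Tendsto (fun N : ℕ => G N w) atTop (𝓝 (FT τ 0)) := by
      rw [Metric.tendsto_nhds]
      intro ε hε
      filter_upwards [hlim (‖w‖ + 1) (ε / 2) (by positivity) (by positivity)] with N hN
      rw [dist_eq_norm]
      exact (hN _ (by linarith)).trans_lt (by linarith)
    have := hnum.div hden hF0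
    rwa [zero_div] at this
  have h2 : Tendsto (fun N : ℕ => 2 * z * (logDeriv (FT τ) w - deriv (G N) w / G N w)) atTop
      (𝓝 (2 * z * (logDeriv (FT τ) w - 0))) := (tendsto_const_nhds.sub herr).const_mul _
  rw [sub_zero] at h2
  refine h2.congr (fun N => ?_)
  rw [hid N, add_sub_cancel_right, Finset.mul_sum]

lemma cn_atTop (RH : RiemannHypothesis) {τ : ℝ} (h0 : 0 < τ) (h1 : τ ≤ 1 / 8) :
    Tendsto (fun N : ℕ => cn (ZZ τ) (Real.sqrt ((N : ℝ) + 1))) atTop atTop := by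
  have hLF := ZZ_LF RH h0.le h1
  rw [Filter.tendsto_atTop]
  intro b
  have h2 : Tendsto (fun N : ℕ => Real.sqrt ((N : ℝ) + 1)) atTop atTop :=
    Real.tendsto_sqrt_atTop.comp (tendsto_atTop_add_const_right _ _ tendsto_natCast_atTop_atTop)
  filter_upwards [h2.eventually_ge_atTop (en (ZZ τ) b)] with N hN
  exact ((en_le_iff hLF b _).1 hN).le

theorem summ_one (RH : RiemannHypothesis) {τ : ℝ} (h0 : 0 < τ) (h1 : τ ≤ 1 / 8) :
    Summable (fun j : ℕ => (1 + en (ZZ τ) j ^ 2)⁻¹) := by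
  have h2 := key_lim RH h0 h1 (z := 1) (by simp)
  have h3 := (Complex.continuous_re.tendsto _).comp h2
  have h4 : Tendsto (fun N : ℕ => ∑ j ∈ Finset.range (cn (ZZ τ) (Real.sqrt ((N : ℝ) + 1))),
      (1 + en (ZZ τ) j ^ 2)⁻¹) atTop (𝓝 ((LL τ 1).re / 2)) := by
    refine (h3.div_const 2).congr (fun N => ?_)
    simp only [Function.comp_def]
    have e1 : ∑ j ∈ Finset.range (cn (ZZ τ) (Real.sqrt ((N : ℝ) + 1))),
      2 * (1 : ℂ) * ((1 : ℂ) ^ 2 + ((en (ZZ τ) j ^ 2 : ℝ) : ℂ))⁻¹ =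
        ((∑ j ∈ Finset.range (cn (ZZ τ) (Real.sqrt ((N : ℝ) + 1))),
      2 * (1 + en (ZZ τ) j ^ 2)⁻¹ : ℝ) : ℂ) := by
      push_cast
      apply Finset.sum_congr rfl
      intro j _
      ring
    rw [e1, Complex.ofReal_re, ← Finset.mul_sum]
    ring
  have hmono : Monotone (fun M : ℕ => ∑ j ∈ Finset.range M, (1 + en (ZZ τ) j ^ 2)⁻¹) := by
    apply monotone_nat_of_le_succ
    intro M
    rw [Finset.sum_range_succ]
    have : 0 ≤ (1 + en (ZZ τ) M ^ 2)⁻¹ := by positivity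
    linarith
  have h5 := (tendsto_iff_tendsto_subseq_of_monotone hmono (cn_atTop RH h0 h1)).2 h4
  exact ((hasSum_iff_tendsto_nat_of_nonneg (fun j => by positivity) _).2 h5).summable

theorem summ_all (RH : RiemannHypothesis) {τ : ℝ} (h0 : 0 < τ) (h1 : τ ≤ 1 / 8) (z : ℂ) :
    Summable (fun j : ℕ => 2 * z * (z ^ 2 + ((en (ZZ τ) j ^ 2 : ℝ) : ℂ))⁻¹) := by
  have hLF := ZZ_LF RH h0.le h1
  apply Summable.mul_left
  apply Summable.of_norm_bounded_eventually_nat ((summ_one RH h0 h1).mul_left 2)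
  have h2 := en_tendsto hLF
  filter_upwards [h2.eventually_ge_atTop (2 * ‖z‖ ^ 2 + 1)] with j hj
  obtain ⟨x, hx⟩ : ∃ x, x = en (ZZ τ) j := ⟨_, rfl⟩
  rw [← hx] at hj ⊢
  have hx1 : 1 ≤ x := by
    have := sq_nonneg ‖z‖
    linarith
  have hx2 : x ≤ x ^ 2 := by nlinarith
  have h3 : x ^ 2 - ‖z‖ ^ 2 ≤ ‖z ^ 2 + ((x ^ 2 : ℝ) : ℂ)‖ := by
    have h4 := norm_sub_norm_le ((x ^ 2 : ℝ) : ℂ) (-z ^ 2)
    rw [norm_neg, norm_pow, Complex.norm_real, Real.norm_eq_abs, abs_of_nonneg (by positivity)] at h4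
    have e : ((x ^ 2 : ℝ) : ℂ) - -z ^ 2 = z ^ 2 + ((x ^ 2 : ℝ) : ℂ) := by ring
    rwa [e] at h4
  have h5 : (1 + x ^ 2) / 2 ≤ ‖z ^ 2 + ((x ^ 2 : ℝ) : ℂ)‖ := by linarith
  rw [norm_inv]
  have h6 : 0 < (1 + x ^ 2) / 2 := by positivity
  calc ‖z ^ 2 + ((x ^ 2 : ℝ) : ℂ)‖⁻¹ ≤ ((1 + x ^ 2) / 2)⁻¹ := inv_anti₀ h6 h5
    _ = 2 * (1 + x ^ 2)⁻¹ := by
      rw [inv_div, div_eq_mul_inv]

/-- partial fractions -/
theorem pf : S_PF := by
  intro RH τ h0 h1 z hz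
  have h2 := (summ_all RH h0 h1 z).hasSum.tendsto_sum_nat
  have h3 := h2.comp (cn_atTop RH h0 h1)
  have h4 := key_lim RH h0 h1 hz
  have h5 := tendsto_nhds_unique h3 h4
  rw [h5] at h2
  refine h2.congr (fun M => ?_)
  rw [sum_sym (YY_refl τ) hz]
  simp only [YY_nat]

end Pool.Agent.P8H24.PC
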