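import Pool.Agent.P8H8.PC.Stm

set_option autoImplicit false

/-!
# The logarithmic derivative stays bounded along the flow
-/

namespace Pool.Agent.P8H24.PC

open Complex Filter Topology MeasureTheory Set Metric
open Pool.Agent.H986R2.DBN (XT ker FT b1A)
open Pool.Agent.Helper242.KK (Ph continuous_Ph)
open Pool.Agent.P8H8.HF
open Pool.Agent.P8H8.PC

namespace Tr

lemma int_kr (n : ℕ) {τ : ℝ} (hτ : τ ≤ 1) (z : ℂ) :
    Integrable (fun u : ℝ => ((kr n τ u : ℝ) : ℂ) * cexp (z * u)) := by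
  refine (bd_int n ‖z‖).mono' (Continuous.aestronglyMeasurable ?_)
      (Eventually.of_forall fun u => kr_bound n hτ le_rfl u)
  have := kr_cont n τ
  fun_prop

lemma kr_der (n : ℕ) (u t : ℝ) : HasDerivAt (fun t : ℝ => kr n t u) (kr (n + 2) t u) t := by
  unfold kr
  have h2 : HasDerivAt (fun t : ℝ => Real.exp (t * u ^ 2)) (Real.exp (t * u ^ 2) * (1 * u ^ 2)) t :=
    ((hasDerivAt_id t).mul_const (u ^ 2)).exp
  refine ((h2.const_mul (Ph u)).const_mul (u ^ n)).congr_deriv ?_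
  ring

/-- derivative along a line -/
theorem path_der (n : ℕ) {τ : ℝ} (hτ : τ < 1) (z c : ℂ) :
    HasDerivAt (fun t : ℝ => DD n t (z + c * ((t - τ : ℝ) : ℂ)))
      (DD (n + 2) τ z + c * DD (n + 1) τ z) τ := by
  have h := hasDerivAt_integral_of_dominated_loc_of_deriv_le (μ := volume) (𝕜 := ℝ)
    (F := fun (t : ℝ) (u : ℝ) => ((kr n t u : ℝ) : ℂ) * cexp ((z + c * ((t - τ : ℝ) : ℂ)) * u))
    (F' := fun (t : ℝ) (u : ℝ) =>
      ((kr (n + 2) t u : ℝ) : ℂ) * cexp ((z + c * ((t - τ : ℝ) : ℂ)) * u) +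
      c * (((kr (n + 1) t u : ℝ) : ℂ) * cexp ((z + c * ((t - τ : ℝ) : ℂ)) * u))) (x₀ := τ)
    (s := Iio 1 ∩ ball τ 1)
    (bound := fun u : ℝ =>
      |u ^ (n + 2) * (Ph u * Real.exp (1 * u ^ 2))| * Real.exp ((‖z‖ + ‖c‖) * |u|) +
      ‖c‖ * (|u ^ (n + 1) * (Ph u * Real.exp (1 * u ^ 2))| * Real.exp ((‖z‖ + ‖c‖) * |u|)))
    (Filter.inter_mem (Iio_mem_nhds hτ) (ball_mem_nhds τ one_pos)) ?_ ?_ ?_ ?_ ?_ ?_
  · have h2 := h.2.const_mul (8 : ℂ)
    have e1 : (8 : ℂ) * ∫ u : ℝ, (((kr (n + 2) τ u : ℝ) : ℂ) * cexp ((z + c * ((τ - τ : ℝ) : ℂ)) * u) +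
      c * (((kr (n + 1) τ u : ℝ) : ℂ) * cexp ((z + c * ((τ - τ : ℝ) : ℂ)) * u))) =
        DD (n + 2) τ z + c * DD (n + 1) τ z := by
      unfold DD
      have e2 : z + c * ((τ - τ : ℝ) : ℂ) = z := by
        rw [sub_self, Complex.ofReal_zero, mul_zero, add_zero]
      rw [e2, integral_add (int_kr (n + 2) hτ.le z) ((int_kr (n + 1) hτ.le z).const_mul c),
        integral_const_mul]
      ring
    exact h2.congr_deriv e1
  · refine Eventually.of_forall fun t => Continuous.aestronglyMeasurable ?_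
    have := kr_cont n t
    fun_prop
  · have e2 : z + c * ((τ - τ : ℝ) : ℂ) = z := by
      rw [sub_self, Complex.ofReal_zero, mul_zero, add_zero]
    simp only [e2]
    exact int_kr n hτ.le z
  · apply Continuous.aestronglyMeasurable
    have := kr_cont (n + 2) τ
    have := kr_cont (n + 1) τ
    fun_prop
  · refine Eventually.of_forall fun u t ht => ?_
    have ht1 : t ≤ 1 := le_of_lt ht.1
    have ht2 : ‖((t - τ : ℝ) : ℂ)‖ ≤ 1 := by
      have := ht.2
      rw [mem_ball, Real.dist_eq] at this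
      rw [Complex.norm_real, Real.norm_eq_abs]
      exact this.le
    have hz : ‖z + c * ((t - τ : ℝ) : ℂ)‖ ≤ ‖z‖ + ‖c‖ := by
      refine (norm_add_le _ _).trans ?_
      rw [norm_mul]
      have := mul_le_mul_of_nonneg_left ht2 (norm_nonneg c)
      linarith
    refine (norm_add_le _ _).trans (add_le_add (kr_bound (n + 2) ht1 hz u) ?_)
    rw [norm_mul]
    exact mul_le_mul_of_nonneg_left (kr_bound (n + 1) ht1 hz u) (norm_nonneg c)
  · exact (bd_int _ _).add ((bd_int _ _).const_mul _)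
  · refine Eventually.of_forall fun u t _ => ?_
    have h1 := (kr_der n u t).ofReal_comp
    have h3 : HasDerivAt (fun t : ℝ => ((t - τ : ℝ) : ℂ)) ((1 : ℝ) : ℂ) t :=
      ((hasDerivAt_id t).sub_const τ).ofReal_comp
    have h4 : HasDerivAt (fun t : ℝ => cexp ((z + c * ((t - τ : ℝ) : ℂ)) * u))
        (cexp ((z + c * ((t - τ : ℝ) : ℂ)) * u) * (c * ((1 : ℝ) : ℂ) * u)) t :=
      (((h3.const_mul c).const_add z).mul_const (u : ℂ)).cexp
    refine (h1.mul h4).congr_deriv ?_
    have e : kr (n + 1) t u = u * kr n t u := by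
      unfold kr
      ring
    rw [e]
    push_cast
    ring

lemma DD_ne (RH : RiemannHypothesis) {τ : ℝ} (h0 : 0 ≤ τ) {z : ℂ} (hz : 0 < z.re) : DD 0 τ z ≠ 0 := by
  intro h
  have := DD_re RH 0 h0 h
  linarith

/-- derivative of the logarithmic derivative along the characteristic -/
theorem LL_path (RH : RiemannHypothesis) {τ : ℝ} (h0 : 0 ≤ τ) (h1 : τ < 1) {z : ℂ} (hz : 0 < z.re) :
    HasDerivAt (fun t : ℝ => LL t (z + -2 * LL τ z * ((t - τ : ℝ) : ℂ))) (L2 τ z) τ := by
  have hne := DD_ne RH h0 hz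
  obtain ⟨c, hc⟩ : ∃ c, c = -2 * LL τ z := ⟨_, rfl⟩
  rw [← hc]
  have e2 : z + c * ((τ - τ : ℝ) : ℂ) = z := by
    rw [sub_self, Complex.ofReal_zero, mul_zero, add_zero]
  have h := (path_der 1 h1 z c).div (path_der 0 h1 z c) (by rw [e2]; exact hne)
  have h3 : HasDerivAt (fun t : ℝ => LL t (z + c * ((t - τ : ℝ) : ℂ))) _ τ := h
  refine h3.congr_deriv ?_
  simp only [e2]
  rw [hc]
  unfold L2 LL
  field_simp
  ring

lemma LL_contAt (RH : RiemannHypothesis) {τ : ℝ} (h0 : 0 ≤ τ) (h1 : τ < 1) {z : ℂ} (hz : 0 < z.re) :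
    ContinuousAt (fun p : ℝ × ℂ => LL p.1 p.2) (τ, z) := by
  unfold LL
  exact (DD_cont 1 h1 z).div (DD_cont 0 h1 z) (DD_ne RH h0 hz)

lemma nonneg_of_left {φ : ℝ → ℝ} {d s : ℝ} (h : HasDerivAt φ d s) (hs : φ s = 0)
    (hl : ∀ᶠ t in 𝓝[<] s, φ t ≤ 0) : 0 ≤ d := by
  have h2 := (hasDerivAt_iff_tendsto_slope.1 h).mono_left
    (nhdsWithin_mono s (show Iio s ⊆ {s}ᶜ from fun t ht => ne_of_lt ht))
  refine ge_of_tendsto h2 ?_
  filter_upwards [hl, self_mem_nhdsWithin] with t ht hts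
  rw [slope_def_field, hs]
  apply div_nonneg_of_nonpos
  · linarith
  · have : t < s := hts
    linarith

end Tr

open Tr in
theorem trans (H : S_HERG) : S_TRANS := by
  intro RH σ x a K hσ hσ1 ha hK h64 h1000 hyp
  obtain ⟨z0, hz0⟩ : ∃ z0 : ℂ, z0 = ⟨a, x⟩ := ⟨_, rfl⟩
  rw [← hz0] at hyp ⊢
  have hz0re : z0.re = a := by rw [hz0]
  obtain ⟨lam, hlam⟩ : ∃ lam : ℝ, lam = 30 / a ^ 2 := ⟨_, rfl⟩
  have hlam0 : 0 < lam := by rw [hlam]; positivity
  obtain ⟨bd, hbd⟩ : ∃ bd : ℝ → ℝ, bd = fun s => 3 / 2 * K * Real.exp (lam * s) := ⟨_, rfl⟩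
  have hbdpos : ∀ s, 0 < bd s := by
    intro s
    rw [hbd]
    positivity
  have hbdle : ∀ s, 0 ≤ s → s ≤ σ → bd s ≤ 2 * K := by
    intro s h0 h1
    rw [hbd]
    have h2 : lam * s ≤ 3 / 100 := by
      rw [hlam, div_mul_eq_mul_div, div_le_iff₀ (by positivity)]
      linarith
    have h3 : Real.exp (lam * s) ≤ 4 / 3 := by
      have h4 : Real.exp (lam * s) ≤ Real.exp (3 / 100) := Real.exp_le_exp.2 h2
      have h5 : Real.exp (3 / 100) ≤ 1 + 3 / 100 + (3 / 100) ^ 2 := by
        have := Real.exp_bound_div_one_sub_of_interval' (show (0 : ℝ) < 3 / 100 by norm_num) (by norm_num)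
        have h6 : (1 : ℝ) / (1 - 3 / 100) ≤ 4 / 3 := by norm_num
        nlinarith [Real.abs_exp_sub_one_sub_id_le (show |(3 / 100 : ℝ)| ≤ 1 by norm_num [abs_le]),
          le_abs_self (Real.exp (3 / 100) - 1 - 3 / 100)]
      have h6 : (1 : ℝ) + 3 / 100 + (3 / 100) ^ 2 ≤ 4 / 3 := by norm_num
      linarith
    calc 3 / 2 * K * Real.exp (lam * s) ≤ 3 / 2 * K * (4 / 3) :=
          mul_le_mul_of_nonneg_left h3 (by positivity)
      _ = 2 * K := by ring
  obtain ⟨Om, hOm⟩ : ∃ Om : Set (ℝ × ℂ), Om = {p | 0 ≤ p.1 ∧ p.1 ≤ σ ∧ ‖p.2 - z0‖ ≤ a / 4 - 4 * K * p.1} :=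
    ⟨_, rfl⟩
  have hOmre : ∀ p ∈ Om, 3 / 4 * a ≤ p.2.re := by
    intro p hp
    rw [hOm] at hp
    obtain ⟨g1, g2, g3⟩ := hp
    have h2 := Complex.abs_re_le_norm (p.2 - z0)
    rw [Complex.sub_re, hz0re] at h2
    have h3 : 0 ≤ 4 * K * p.1 := by positivity
    have h4 := (abs_le.1 (h2.trans (g3.trans (show a / 4 - 4 * K * p.1 ≤ a / 4 by linarith)))).1
    linarith
  have hOmcl : IsClosed Om := by
    have e : Om = {p : ℝ × ℂ | 0 ≤ p.1} ∩ ({p : ℝ × ℂ | p.1 ≤ σ} ∩ {p : ℝ × ℂ | ‖p.2 - z0‖ ≤ a / 4 - 4 * K * p.1}) := by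
      rw [hOm]
      ext p
      rfl
    rw [e]
    refine (isClosed_le (by fun_prop) (by fun_prop)).inter
      ((isClosed_le (by fun_prop) (by fun_prop)).inter (isClosed_le (by fun_prop) (by fun_prop)))
  have hOmc : IsCompact Om := by
    have h2 : IsCompact (Icc (0 : ℝ) σ ×ˢ closedBall z0 (a / 4)) :=
      isCompact_Icc.prod (isCompact_closedBall _ _)
    refine h2.of_isClosed_subset hOmcl ?_
    intro p hp
    rw [hOm] at hp
    obtain ⟨g1, g2, g3⟩ := hp
    have h3 : 0 ≤ 4 * K * p.1 := by positivity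
    refine ⟨⟨g1, g2⟩, ?_⟩
    rw [mem_closedBall, dist_eq_norm]
    linarith
  have hcont : ContinuousOn (fun p : ℝ × ℂ => ‖LL p.1 p.2‖ - bd p.1) Om := by
    intro p hp
    have hre := hOmre p hp
    rw [hOm] at hp
    obtain ⟨g1, g2, g3⟩ := hp
    have h2 : ContinuousAt (fun p : ℝ × ℂ => LL p.1 p.2) p :=
      LL_contAt RH g1 (by linarith) (by linarith)
    have h3 : ContinuousAt (fun p : ℝ × ℂ => bd p.1) p := by
      rw [hbd]
      fun_prop
    exact (h2.norm.sub h3).continuousWithinAt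
  obtain ⟨A, hA⟩ : ∃ A : Set (ℝ × ℂ), A = Om ∩ (fun p : ℝ × ℂ => ‖LL p.1 p.2‖ - bd p.1) ⁻¹' Ici 0 := ⟨_, rfl⟩
  have hAc : IsCompact A := by
    refine hOmc.of_isClosed_subset ?_ (by rw [hA]; exact inter_subset_left)
    rw [hA]
    exact hcont.preimage_isClosed_of_isClosed hOmcl isClosed_Ici
  rcases A.eq_empty_or_nonempty with hemp | hne
  · -- no bad point
    intro s h0 h1
    by_contra hcon
    push Not at hcon
    have h2 : (s, z0) ∈ A := by
      rw [hA]
      constructor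
      · rw [hOm]
        refine ⟨h0, h1, ?_⟩
        simp only [sub_self, norm_zero]
        nlinarith
      · simp only [mem_preimage, mem_Ici]
        have := hbdle s h0 h1
        linarith
    rw [hemp] at h2
    exact h2
  · exfalso
    obtain ⟨p, hp, hmin⟩ := hAc.exists_isMinOn hne continuous_fst.continuousOn
    obtain ⟨s, z⟩ := p
    rw [hA] at hp
    obtain ⟨hpO, hpb⟩ := hp
    simp only [mem_preimage, mem_Ici] at hpb
    have hzre : 3 / 4 * a ≤ z.re := hOmre _ hpO
    have hzpos : 0 < z.re := by linarith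
    rw [hOm] at hpO
    obtain ⟨g1, g2, g3⟩ := hpO
    simp only at g1 g2 g3
    have hs1 : s < 1 := by linarith
    -- before the first bad time
    have hbefore : ∀ (t : ℝ) (w : ℂ), 0 ≤ t → t < s → ‖w - z0‖ ≤ a / 4 - 4 * K * t → ‖LL t w‖ < bd t := by
      intro t w ht hts hw
      by_contra hcon
      push Not at hcon
      have h2 : (t, w) ∈ A := by
        rw [hA]
        constructor
        · rw [hOm]
          exact ⟨ht, by simp only; linarith, hw⟩
        · simp only [mem_preimage, mem_Ici]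
          linarith
      have h3 : s ≤ t := hmin h2
      linarith
    have hspos : 0 < s := by
      rcases g1.eq_or_lt with h | h
      · exfalso
        subst h
        have h2 := hyp z (by linarith)
        have h3 : bd 0 = 3 / 2 * K := by
          rw [hbd]
          simp
        rw [h3] at hpb
        linarith
      · exact h
    have hev : ∀ᶠ t in 𝓝[<] s, 0 < t ∧ t < s := by
      filter_upwards [Ioo_mem_nhdsLT hspos] with t ht
      exact ht
    have hB : ‖LL s z‖ = bd s := by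
      apply le_antisymm _ (by linarith)
      have h2 : ContinuousAt (fun t : ℝ => LL t z) s := by
        have h3 : ContinuousAt (fun t : ℝ => ((t, z) : ℝ × ℂ)) s := by fun_prop
        exact ContinuousAt.comp (f := fun t : ℝ => ((t, z) : ℝ × ℂ))
          (g := fun p : ℝ × ℂ => LL p.1 p.2) (LL_contAt RH g1 hs1 hzpos) h3
      have h3 : ContinuousAt bd s := by
        rw [hbd]
        fun_prop
      refine le_of_tendsto_of_tendsto (h2.norm.tendsto.mono_left nhdsWithin_le_nhds)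
        (h3.tendsto.mono_left (nhdsWithin_le_nhds (s := Iio s))) ?_
      filter_upwards [hev] with t ht
      refine (hbefore t z ht.1.le ht.2 ?_).le
      have := mul_le_mul_of_nonneg_left ht.2.le (show 0 ≤ 4 * K by positivity)
      linarith
    have hB2 : bd s ≤ 2 * K := hbdle s g1 g2
    have hBpos := hbdpos s
    -- the derivative
    have hd := (LL_path RH g1 hs1 hzpos).norm_sq
    have hd2 : HasDerivAt (fun t : ℝ => bd t ^ 2) (2 * lam * bd s ^ 2) s := by
      have h2 : HasDerivAt bd (lam * bd s) s := by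
        rw [hbd]
        have h3 : HasDerivAt (fun t : ℝ => Real.exp (lam * t)) (Real.exp (lam * s) * (lam * 1)) s :=
          ((hasDerivAt_id s).const_mul lam).exp
        refine (h3.const_mul (3 / 2 * K)).congr_deriv ?_
        ring
      refine (h2.pow 2).congr_deriv ?_
      push_cast
      ring
    have hd3 := hd.sub hd2
    have e2 : z + -2 * LL s z * ((s - s : ℝ) : ℂ) = z := by
      rw [sub_self, Complex.ofReal_zero, mul_zero, add_zero]
    have h0 : 0 ≤ 2 * inner ℝ (LL s (z + -2 * LL s z * ((s - s : ℝ) : ℂ))) (L2 s z) - 2 * lam * bd s ^ 2 := by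
      refine nonneg_of_left hd3 ?_ ?_
      · simp only [Pi.sub_apply]
        rw [e2, hB]
        ring
      · filter_upwards [hev] with t ht
        simp only [Pi.sub_apply]
        have h2 : ‖z + -2 * LL s z * ((t - s : ℝ) : ℂ) - z0‖ ≤ a / 4 - 4 * K * t := by
          have h3 : z + -2 * LL s z * ((t - s : ℝ) : ℂ) - z0 = (z - z0) + -2 * LL s z * ((t - s : ℝ) : ℂ) := by
            ring
          rw [h3]
          refine (norm_add_le _ _).trans ?_
          rw [norm_mul, norm_mul, hB, Complex.norm_real, Real.norm_eq_abs,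
            abs_of_neg (by linarith [ht.2] : t - s < 0)]
          have h4 : ‖(-2 : ℂ)‖ = 2 := by norm_num
          rw [h4]
          have h5 : 2 * bd s * -(t - s) ≤ 4 * K * (s - t) := by
            have := mul_le_mul_of_nonneg_right hB2 (show 0 ≤ s - t by linarith [ht.2])
            linarith
          linarith
        have h3 := hbefore t _ ht.1.le ht.2 h2
        have h4 : ‖LL t (z + -2 * LL s z * ((t - s : ℝ) : ℂ))‖ ^ 2 ≤ bd t ^ 2 :=
          pow_le_pow_left₀ (norm_nonneg _) h3.le 2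
        linarith
    rw [e2] at h0
    have hherg := (H RH s g1 (by linarith) z hzpos).2.1
    have h5 : inner ℝ (LL s z) (L2 s z) ≤ ‖LL s z‖ * ‖L2 s z‖ := real_inner_le_norm _ _
    have h6 : (LL s z).re ≤ bd s := by
      rw [← hB]
      exact Complex.re_le_norm _
    have h7 : ‖L2 s z‖ ≤ 256 / 9 * (bd s / a ^ 2) := by
      refine hherg.trans ?_
      have h8 : (3 / 4 * a) ^ 2 ≤ z.re ^ 2 := pow_le_pow_left₀ (by positivity) hzre 2
      calc 16 * (LL s z).re / z.re ^ 2 ≤ 16 * bd s / z.re ^ 2 := by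
            apply div_le_div_of_nonneg_right _ (by positivity)
            linarith
        _ ≤ 16 * bd s / (3 / 4 * a) ^ 2 := by
            apply div_le_div_of_nonneg_left _ (by positivity) h8
            positivity
        _ = 256 / 9 * (bd s / a ^ 2) := by
            field_simp
            ring
    rw [hB] at h5
    have h9 : bd s * ‖L2 s z‖ ≤ bd s * (256 / 9 * (bd s / a ^ 2)) := mul_le_mul_of_nonneg_left h7 hBpos.le
    have e3 : bd s * (256 / 9 * (bd s / a ^ 2)) = 256 / 9 * (bd s ^ 2 / a ^ 2) := by ring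
    have e4 : lam * bd s ^ 2 = 30 * (bd s ^ 2 / a ^ 2) := by rw [hlam]; ring
    have h10 : 0 < bd s ^ 2 / a ^ 2 := by positivity
    rw [e3] at h9
    have h11 : 2 * lam * bd s ^ 2 = 2 * (lam * bd s ^ 2) := by ring
    rw [h11, e4] at h0
    linarith

end Pool.Agent.P8H24.PC
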